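import Pool.Agent.N978.HP.Final
import Pool.Agent.N592.HP.SV
import Pool.Agent.N279.HP.DV

/-!
# Semisimplicity at every prime for 100 percent of the members of a family

Let `M` be the sum of finitely many families `M i` of pure motives of dimension `n i` and weight `w i`
over an open subset `U` of the projective line over `ℚ` (for example the cohomology of the fibres of a
smooth projective family over `U`), and let `𝔤` be the Lie algebra of the motivic Galois group of the
generic member (over an algebraically closed field), of rank at most `r`.

Theorem. Suppose that for ONE rational point `t₀` of `U` and ONE prime number `ℓ₀` there is one element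
of the Galois group of `ℚ` with `r` multiplicatively independent eigenvalues on the `ℓ₀`-adic
realization of `M_{t₀}` (for example one Frobenius element). Then for 100 percent of the rational
points `t` of the projective line, ordered by height, and for EVERY prime number `ℓ`: the `ℓ`-adic
realization of `M_t` is a semisimple representation of the Galois group of `ℚ` and of all its
subgroups of finite index (the conjecture of Grothendieck and Serre for `M_t`); the Lie algebra of
the endomorphisms which kill all Tate tensors is a reductive subalgebra of `𝔤 ⊗ ℚ_ℓ` of rank `r`; all
Tate tensors are motivated if and only if all Tate endomorphisms are motivated; and the motivated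
Mumford-Tate conjecture for `M_t` at `ℓ` is equivalent to its part for endomorphisms.

There is no condition on the type of the motivic Galois group or of the monodromy of the family, and
no polarization is used. If the member `M_{t₀}` satisfies the Mumford-Tate conjecture at `ℓ₀` and its
motivic Galois group is the one of the generic member, there is an element as in the theorem.
Semisimplicity is known for abelian varieties (Faltings) and, for a fixed member, for all `ℓ` in a set
of density one; the known results on the exceptional members of a family (Serre, Terasoma, André,
Cadoret-Tamagawa) are for one `ℓ`.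

The proof: the Frobenius elements near the given one have independent eigenvalues (library
`Pool.Agent.R931.IR`), so by Chebotarev's theorem there is a set of prime numbers `p` of positive
density at which `M_{t₀}` has good reduction with Frobenius eigenvalues of maximal rank. By a sieve
(`Pool.Agent.N592.HP`, helper592; `Pool.Agent.N279.HP`, helper279) 100 percent of the points `t` are
congruent to `t₀` modulo two of these primes; one of the two is different from `ℓ`, and `M_t` has the
same Frobenius polynomials as `M_{t₀}` there. Then the theorem on one motive applies
(`Pool.Agent.R931.BD`, `Pool.Agent.N203.RE`, helper203).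
-/

set_option autoImplicit false

namespace Pool.Agent.Results.MP_8f1292_ag.HundredPercent

open Polynomial Module Pool.Agent.Y114.RM Pool.Agent.R931.IR Pool.Agent.N203.RE
  Pool.Agent.N978.HP

theorem result {Γ : Type} [Group Γ] [TopologicalSpace Γ] {ι : Type} [Fintype ι] [DecidableEq ι]
    {n : ι → ℕ}
    -- the family over `U` and its motivic Lie algebra, of rank at most `r`
    (s : Pt → Gal(AlgebraicClosure ℚ/ℚ) →* Γ) (w : ι → ℤ) (m : ℕ) (D : MvPolynomial (Fin 2) ℤ)
    (P : ℕ → Pt → ι → ℚ[X]) (ρ : ∀ (ℓ : ℕ) [Fact ℓ.Prime], Reps Γ n ℓ)
    (𝔤 : Submodule ℚ (End ℚ (Betti n))) (h : Family s w m D P ρ 𝔤) (r : ℕ) (hr : RatRankLE 𝔤 r)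
    -- one member, one prime number, one element of the Galois group
    (t₀ : Pt) (ht₀ : InU D t₀) (c : ℕ) (hc : IntegralMember m D P c t₀)
    (ℓ₀ : ℕ) [Fact ℓ₀.Prime] (σ : Gal(AlgebraicClosure ℚ/ℚ))
    (hσ : IndependentEigenvalues (restrictTo (ρ ℓ₀) (s t₀)) σ r) :
    -- 100 percent of the members, every prime number
    AlmostAll fun t => InU D t ∧ ∀ (ℓ : ℕ) [Fact ℓ.Prime],
      RankTheorem (restrictTo (ρ ℓ) (s t)) 𝔤 r :=
  rank_almostAll Pool.Agent.N592.HP.t_SV Pool.Agent.N279.HP.t_DV h r hr ht₀ c
    (fun _ i hv a ha => hc _ hv i a ha) ℓ₀ σ hσ

end Pool.Agent.Results.MP_8f1292_ag.HundredPercent
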