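import Mathlib
import Pool.Agent.N144.MS.Glue

/-!
# Semisimplicity and Tate tensors for sums of motives with maximally unipotent monodromy

Let `M i` be finitely many polarized pure motives of the same odd weight `w` over a number field `F`
(for example summands of the cohomology groups `H ^ w (X)`), with alternating polarizations; `R` are
their `ℓ`-adic realizations of dimension `n i > 0`.  Let `ℓ` be a prime number.  Suppose that

* there are three primes `p ≠ ℓ`, unramified in `F`, above which all `M i` have good reduction;
* for each `i` there is a prime `p ≠ ℓ`, unramified in `F`, such that above `p` the motive `M i` has
  good reduction or maximally unipotent monodromy (one Jordan block, as for the degenerations of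
  Calabi-Yau varieties or rigid local systems at a large complex structure limit), and a place above
  `p` where the monodromy of `M i` is maximally unipotent and where no other `M j` of the same
  dimension has potentially maximally unipotent monodromy;
* if `n i ≥ 4`, then at ONE place (not above `ℓ`) of good reduction three of the Frobenius eigenvalues
  of `M i` are multiplicatively independent.

Theorem.  The sum of the `ℓ`-adic realizations of the `M i` is a semisimple representation of the
Galois group of `F` and of all its subgroups of finite index, and all homomorphisms
`V ^ {⊗ s} (c) → V ^ {⊗ t} (d)` which commute with such a subgroup are linear combinations of products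
of the polarizations of the `M i`: so they come from algebraic correspondences, if this is true for the
polarizations (the Tate conjecture for all products of powers of the `M i`).  The statement is for
each prime `ℓ` individually.  There is no condition on the type of the monodromy groups, on the Hodge
numbers, or on the reduction outside of these places, and no relation between the Frobenius eigenvalues
is excluded, but for the existence of three independent ones (the criteria `RelationFreeFrobenius`
and `RegularMonodromy` among the earlier results need Frobenius eigenvalues with trivial relations only,
or a Frobenius torus of maximal rank in the motivic Galois group of the sum).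

The proof is in the library `Pool.Agent.Y114.MU` (by the earlier version of this team; its two main
theorems, irreducibility and Tate classes of sums, were not used in an earlier hand-in) and in
`Pool.Agent.N144.MS.Glue`: the determinant of a stable subspace is a power of the cyclotomic character,
up to finite order and transfer to `ℚ`, by the `ℓ`-adic six exponentials theorem (library
`Pool.Agent.Y115`); a weight comparison at the places of maximal degeneration gives irreducibility.  The
Lie algebra of the endomorphisms which kill the Tate tensors contains a principal nilpotent element of
`𝔰𝔭(V i)`, hence a principal triple; the three independent eigenvalues exclude all proper subalgebras;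
the unipotent elements separate the summands (Goursat).
-/

set_option autoImplicit false

namespace Pool.Agent.Results.MP_8f1292_ag.MaximallyUnipotentSums

open NumberField IsDedekindDomain Polynomial Pool.Agent.Y114.TF Pool.Agent.Y114.GF
  Pool.Agent.Y114.MU

theorem result {F : Type} [Field F] [NumberField F] {ι : Type} [Fintype ι] [DecidableEq ι]
    {n : ι → ℕ} (hn : ∀ i, 0 < n i)
    -- the realizations, of weight `w`, and the prime `ℓ`
    (R : Realizations n Gal(AlgebraicClosure F/F)) (w : ℕ) (hR : IsSystem R w)
    (ℓ : ℕ) (hℓ : ℓ.Prime)
    -- three primes of good reduction
    (P : HeightOneSpectrum (𝓞 F) → ι → ℚ[X]) (T : Set ℕ) (hT3 : 3 ≤ T.encard)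
    (hT : ∀ p ∈ T, p.Prime ∧ p ≠ ℓ ∧ UnramifiedIn F p)
    (hgood : ∀ p ∈ T, ∀ v, Above v p → GoodAt R w v (P v))
    -- the places of maximally unipotent monodromy
    (hdeg : ∀ i, ∃ p : ℕ, (p.Prime ∧ p ≠ ℓ ∧ UnramifiedIn F p) ∧
      (∃ v, Above v p ∧ MaxUnipotentAt R i v ∧ DistinguishedAt R i v) ∧
      ∀ v, Above v p → MaxUnipotentAt R i v ∨ GoodFor R w i v)
    -- three independent Frobenius eigenvalues
    (hind : ∀ i, 4 ≤ n i → ∃ v P₀, ¬ Above v ℓ ∧ GoodAt R w v P₀ ∧ ThreeIndependent (P₀ i)) :
    R.TateAt ℓ :=
  Pool.Agent.N144.MS.main R w hR ℓ hℓ P T hT3 hT hgood hn hdeg hind

end Pool.Agent.Results.MP_8f1292_ag.MaximallyUnipotentSums
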