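import Mathlib
import Pool.Agent.N144.SP.Irr

/-!
# Semisimplicity for a proportion of the primes, and for the primes which split in a number field

Let `V_ℓ`, for all prime numbers `ℓ`, be the `ℓ`-adic realizations of a pure motive over a number field
`K`, or over a finitely generated field `k` of characteristic zero, of dimension `N` (`Γ` is the Galois group of
`K`, or the fundamental group of a model of `k` over a number field `K`, and `s` is given by a `K`-rational
point).  Outside of a finite set `S` of places `v` there is good reduction, with Frobenius polynomials `P v`
independent of `ℓ`, and `(q v) ^ c` times a Frobenius eigenvalue is an algebraic integer.  Let `r` be the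
maximal number of multiplicatively independent Frobenius eigenvalues at a place.

The *relations* between numbers `z_1, ..., z_N` are the vectors `n` of integers such that the product of
the `z_i ^ {n_i}` is a root of unity.  Let `R` be a set of vectors of rank at most `N - r`, and let `A` be
the group of permutations of `{1, ..., N}` which preserve `R`.  An element of the image of the Galois group at
a prime `p` has the *type* `a` (with respect to `p` and an automorphism `τ` of the algebraic closure of `ℚ_p`)
if its eigenvalues can be written as `z_1, ..., z_N` with relations `R` and `τ (z_i) = z_{a(i)}` (no quotient of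
two of them being a root of unity); in the same way we define the types of the elements of the Lie
algebra of the image.  The types can be computed from the Frobenius polynomials at finitely many places.

Let `T j` (for `j` in any index set) be sets of types which occur at primes `p j` for automorphisms `τ j`.
Consider all pairs (`G`, `M`) of a subgroup `G` of `A` and a normal subgroup `M` of `G` such that for all `j` the
elements of `T j` are conjugate in `A` to elements of one coset of `M` in `G`.  A coset `M * g` (`g` in `G`)
*forces* a property of permutation groups if it is satisfied by all subgroups `H` of `A` for which there is an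
element `y` of `A` which normalizes `H` such that all elements of `M * g` are conjugate in `A` to elements of
`H * y`.

**Theorem.**  (1) Suppose that for all these pairs, the number of the elements `g` of `G` for which the coset
`M * g` forces that `H` satisfies at least one of the following three conditions (`Source`) is at least `δ`
times the order of `G` (`ForcesProportion`):

* the number of the orbits of `H` is at most the dimension of the algebra of the endomorphisms of `V_ℓ` over
  some finite extension of the ground field (for all `ℓ`);
* the realizations are polarized, and all orbits of `H` are stable under the dualities (the elements `c` of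
  `A` such that all the products `z_i * z_{c(i)}` are equal modulo the relations);
* there are Lie algebras `𝔤 ℓ` with the properties of the Lie algebra of the motivic Galois group, of rank at
  most `r`, such that for all groups `B` of permutations which contain `H` and have at least as many
  orbits as the dimension of the commutant of `𝔤 ℓ`, nonzero multiples of the vectors `e_i - e_{b(i)}`, `b` in
  `B`, are contained in the lattice generated by `R` and the vectors `e_i - e_{a(i)}`, `a` in `H`.

Then the set of the prime numbers `ℓ` such that `V_ℓ` is semisimple, over all finite extensions of the ground
field, has lower natural density at least `δ`.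

(2) Suppose that for all these pairs, at least one of the three conditions is satisfied by every subgroup `H` of
`A` which contains conjugates of all elements of `M` (`ForcesSplit`).  Then there is a monic polynomial
`f` with integral coefficients such that `V_ℓ` is semisimple, over all finite extensions of the ground field, for
all prime numbers `ℓ` modulo which `f` splits, outside of a set of density zero.

(3) In the same way, if it is forced with proportion `δ` that `H` has at most `m` orbits, then for a set of
prime numbers `ℓ` of lower density at least `δ`, and for all subgroups `Δ` of finite index, the endomorphisms of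
`V_ℓ` which commute with `Δ` have dimension at most `m`, and there are at most `2 ^ m` subspaces which
are stable under `Δ`.

For `δ = 1` this contains the zero-one laws (`EnoughEndomorphisms` in this folder, `ZeroOneLaw` in
MP_b4801b_ag).  The new case is that the types are not sufficient for `100` percent of the primes: for example
suppose that at one prime `p` (and for one `τ`) the type `1` and an `N`-cycle occur (a Frobenius
polynomial which splits over `ℚ_p`, and an irreducible one).  Then (`proportion_of_cycle`) for at least
`N / |A|` of all primes `V_ℓ` is irreducible over all finite extensions of the ground field; while the known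
criteria for all or for almost all `ℓ` would need further types.  The bound is uniform: it
depends only on `N` and `A`.

The proof extends the library `Pool.Agent.R931.ZF` (by the earlier version of this team).  There is a place `v`
of good reduction such that `G` is the Galois group of the Frobenius polynomial `P v`, and `M` its subgroup
for the field `F` which is the intersection of the splitting fields of the `P v'` for all good places `v'`
of maximal rank.  For all `ℓ` outside of a set of density zero, all elements of the coset `M * g` are types
at `ℓ` with respect to a fixed Frobenius element of the Galois group of `ℚ_ℓ`, where `g` is given by its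
action on the roots of `P v`; the set of the good elements `g` is invariant under conjugation, and its density
is given by Chebotarev's theorem.
-/

set_option autoImplicit false

namespace Pool.Agent.Results.MP_8f1292_ag.PositiveProportion

open NumberField IsDedekindDomain Polynomial Module Pool.Agent.Y114.TF Pool.Agent.Y114.GF
  Pool.Agent.Y114.MU Pool.Agent.Y114.RM Pool.Agent.R931.GD Pool.Agent.R931.ZL Pool.Agent.R931.ZM
  Pool.Agent.R931.PD Pool.Agent.R931.ZF Pool.Agent.R931.ZG Pool.Agent.N144.SP

theorem result (K : Type) [Field K] [NumberField K] (Γ : Type) [Group Γ] [TopologicalSpace Γ]
    [IsTopologicalGroup Γ] [CompactSpace Γ] (s : Gal(AlgebraicClosure K/K) →* Γ)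
    (hs : Continuous s)
    -- the `ℓ`-adic realizations
    (N : ℕ) (hN : 0 < N)
    (ρ : ∀ (ℓ : ℕ) [Fact ℓ.Prime], Rep1 Γ N ℓ) (hρ : ∀ (ℓ : ℕ) [Fact ℓ.Prime], Conts (ρ ℓ))
    -- good reduction outside of a finite set of places
    (wt : ℤ) (c : ℕ) (S : Set (HeightOneSpectrum (𝓞 K))) (hS : S.Finite)
    (P : HeightOneSpectrum (𝓞 K) → ℚ[X])
    (hP : ∀ (ℓ : ℕ) [Fact ℓ.Prime], ∀ v ∉ S, ¬ Above v ℓ →
      GoodReduction (restrictTo (ρ ℓ) s) () wt v (P v))
    (hint : ∀ v ∉ S, IntegralAt c v (P v))
    -- at most `r` independent eigenvalues
    (r : ℕ) (hrank : ∀ v ∉ S, ¬ IndepRoots (r + 1) {P v})
    -- the relations, and their automorphism group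
    (R : Set (Fin N → ℤ)) (hR : RankGE r R)
    -- the types at some prime numbers
    (J : Type) (T : J → Set (Equiv.Perm (Fin N))) (hne : ∃ j, (T j).Nonempty)
    (p : J → ℕ) [∀ j, Fact (p j).Prime] (τ : ∀ j, Gal(PadicAlgCl (p j)/ℚ_[p j]))
    (htypes : ∀ j, ∀ a ∈ T j, TypeOccurs s (ρ (p j)) R (τ j) a) :
    -- semisimplicity for a proportion of the primes
    (∀ δ : ℝ, ForcesProportion (relAut R) T (Source ρ R r) δ →
      LowerDensityGE {ℓ | ∃ _ : Fact ℓ.Prime, Semisimple (ρ ℓ)} δ) ∧
    -- semisimplicity for the primes which split in a number field
    (ForcesSplit (relAut R) T (Source ρ R r) → ∃ f : ℤ[X], f.Monic ∧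
      HasDensityZero {ℓ | ∃ _ : Fact ℓ.Prime,
        (f.map (Int.castRingHom (ZMod ℓ))).Splits ∧ ¬ Semisimple (ρ ℓ)}) ∧
    -- endomorphisms and stable subspaces for a proportion of the primes
    ∀ (m : ℕ) (δ : ℝ), ForcesProportion (relAut R) T (fun H => orbitCount H ≤ m) δ →
      LowerDensityGE {ℓ | ∃ _ : Fact ℓ.Prime, ∀ Δ : Subgroup Γ, Δ.FiniteIndex →
        centralizerDim (ρ ℓ () '' (Δ : Set Γ)) ≤ m ∧
          (stableSubspaces (ρ ℓ) Δ).encard ≤ 2 ^ m} δ := by
  have h : SetupG K Γ s N wt c r S P ρ := ⟨hN, hs, hρ, hS, hP, hint, fun v hv => hrank v hv.1⟩
  obtain ⟨h1, h2⟩ := semi_law h R hR T hne p τ htypes
  exact ⟨h1, h2, fun m => (endo_law h R hR T hne p τ htypes m).1⟩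

end Pool.Agent.Results.MP_8f1292_ag.PositiveProportion
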