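import Pool.Agent.N536.SL.Main

/-!
# Semisimplicity of the Galois representations: the law of the semisimple subquotients

`F` is a field, for example a number field, `p` a prime number, `P` a class of varieties over `F`
which is closed under products, for example the smooth projective varieties, and
`H(X) = ⨁ H^m(X)` is the `p`-adic étale cohomology of `X` over the algebraic closure of `F` with
the action of the absolute Galois group `G` of `F`. Let `b(X)` be the dimension of `H(X)`. The used
properties of `H` are the finiteness, the continuity of the action and the Künneth formula; `G` may
be any compact group.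

**Theorem.** (1) For every `X` in `P` either the representations `H^m(X^(n+1))` are semisimple for
all `m` and `n`, or for every `n ≥ 0` all semisimple subquotients of `H(X^(n+1))` have dimension at
most `(b(X) / (2 n + 4))^(1/2) b(X^(n+1))` and the Loewy length of `H(X^(n+1))` is at least `n + 2`.

(2) If `H^m(X)` is not semisimple, the Loewy length of `H^(m(n+1))(X^(n+1))` is at least `n + 2`
for all `n ≥ 0`.

(3) Let `f` be a function with `f(y) (log y)^(1/2) → ∞`. If every `H(Y)` has a semisimple
subquotient of dimension at least `f(b(Y)) b(Y)`, then all `H^m(X)` are semisimple.

(4) Let `g` be a function with `g(x) / x → 0`. If the Loewy length of `H^i(Y)` is at most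
`g(i + log b(Y))` for all `Y` and `i`, then all `H^m(X)` are semisimple.

So the conjecture is equivalent to the statement that a positive share of every `H(Y)` is
semisimple (in the sense that it has a semisimple quotient, submodule or subquotient of dimension
at least `ε b(Y)`), and to the statement that the Loewy lengths are bounded (or only `o(i)`).

Proof. Let `V = H(X)`. Let `L` be the Lie algebra of all operators `x`
on `V` such that for all `n` the derivation of `V^(⊗(n+1))` which is induced by `x` respects all
subspaces which are stable under an open subgroup of `G`. It contains the logarithms of the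
elements of `G` near to `1`, and with an operator it contains its nilpotent part. If `L` has no
nonzero characteristic ideal of nilpotent operators, then its radical is its center, which
consists of semisimple operators, and by Weyl's theorem `V^(⊗(n+1))` is a semisimple module over
`L`, hence over `G`, for all `n`. Otherwise such an ideal `J` acts trivially on all semisimple
subquotients of `V^(⊗(n+1))`, by the lemma of Nakayama and Engel's theorem; so their dimensions
are at most the dimension of the kernel of the operator which is induced by an `x ≠ 0` in `J`.
This is computed by the theory of `sl(2)`, and anticoncentration gives the bound.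
-/

set_option autoImplicit false

open Module AlgebraicGeometry Filter Topology

universe u v x

namespace Pool.Agent.Results.MP_8f1292_ag.SocleLaw

open Pool.Agent.N536.FS (SVar)
open Pool.Agent.N536.SL

/-- **The law of the semisimple subquotients.** -/
theorem result {F : Type u} [Field F] {G : Type x} [Group G] [TopologicalSpace G]
    [IsTopologicalGroup G] [CompactSpace G] {p : ℕ} [Fact p.Prime]
    {P : SVar.{u} F → Prop} {H : SVar.{u} F → GCoh.{v} ℚ_[p] G} (hH : IsGTheory P H) :
    (∀ X, P X → (∀ n m, (H (vpow X n)).Semisimple m) ∨ (2 ≤ (H X).betti ∧ PowerLaw H X)) ∧
    (∀ X, P X → ∀ m, ¬ (H X).Semisimple m →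
      ∀ n, (H (vpow X n)).LoewyGE ((H (vpow X n)).gr (m * (n + 1))) (n + 2)) ∧
    (∀ f : ℕ → ℝ, Tendsto (fun y : ℕ => f y * √(Real.log y)) atTop atTop →
      LargeSubquots P H f → AllSemisimple P H) ∧
    ∀ g : ℝ → ℝ, Tendsto (fun x => g x / x) atTop (𝓝 0) → LoewyBound P H g →
      AllSemisimple P H :=
  ⟨fun _ hX => law1' hH hX, fun _ hX _ hm => law2 hH hX hm, fun f hf h => law3 hH f hf h,
    fun g hg h => law4 hH g hg h⟩

end Pool.Agent.Results.MP_8f1292_ag.SocleLaw
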